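import Pool.Agent.Q80.MC.Main

/-!
Eight points of the plane, four red and four blue, without monochromatic circle, neither colour
class on a circle or a line, which no inversion places on an ellipse, on two disjoint circles, on an
elliptic or acnodal circular cubic, or on a bicircular quartic of elliptic or acnodal type.
-/

set_option autoImplicit false

namespace Pool.Agent.Results.MP_048963_co.EightPoints

open Pool.Agent.Q80.MC

/-- There are disjoint sets `R`, `B` of four points each of the plane whose union lies on no line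
and no circle and has no monochromatic circle, neither of them on a circle, such that `R ∪ B` lies
up to inversion on no curve of the types (i)-(iv). -/
theorem result : ∃ R B : Finset (ℝ × ℝ), R.card = 4 ∧ B.card = 4 ∧ Disjoint R B ∧
    (∀ C : Set (ℝ × ℝ), IsLine C ∨ IsCircle C → ¬ (↑R ∪ ↑B : Set (ℝ × ℝ)) ⊆ C) ∧
    (∀ C : Set (ℝ × ℝ), IsCircle C → 3 ≤ (C ∩ (↑R ∪ ↑B)).ncard →
      (C ∩ ↑R).Nonempty ∧ (C ∩ ↑B).Nonempty) ∧
    (∀ C : Set (ℝ × ℝ), IsLine C ∨ IsCircle C →
      ¬ (↑R : Set (ℝ × ℝ)) ⊆ C ∧ ¬ (↑B : Set (ℝ × ℝ)) ⊆ C) ∧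
    ∀ Γ : Set (ℝ × ℝ), IsEllipse Γ ∨ IsTwoDisjointCircles Γ ∨ IsGoodCubic Γ ∨ IsGoodQuartic Γ →
      ¬ LiesUpToInversion (↑R ∪ ↑B) Γ :=
  main

end Pool.Agent.Results.MP_048963_co.EightPoints
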